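import Mathlib
import Pool.Agent.J4.H38.GD.Sharp

/-!
# Sums of a prime from an ARBITRARY set of primes and of an integer with at most two prime factors

Goldbach's conjecture: every even `N > 2` is a sum of two primes. Chen: every large even `N` is a sum of a prime and of a `P_2`.
Here the prime is taken from an ARBITRARY set `P` of primes `p ≤ N`. For EVERY large `N` and almost all `m` in the very short
interval `(N, N + H]`, where `H` is only a large multiple of `log N`, the number of the `p` in `P` such that `m - p` has at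
most two prime factors is at least the expected number up to an absolute constant factor and up to `ε N / (log N) ^ 2`: the only
obstructions are the residues of `P` modulo one fixed number `W = W(ε)`; and the same holds for the number of the `p` in `P` for which
ALL the `m - p`, `m ∈ M`, are such integers, for almost all sets `M` of `k` elements of `(N, N + H]`. As a consequence, for every set `P` of a
proportion `δ` of the primes `≤ N` at least `c H / log log (16 / δ)` of the `m` in `(N, N + H]` are sums of an element of `P` and a `P_2`. (For the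
primes `≡ 1` modulo all small primes this is best possible up to `c`.) The exceptional sets depend on `P`, the number `N₀` does not.

Method: for almost all shifts the integers `m - p` are as often free of small prime factors as they should be: in each residue class
modulo `W` this follows by duality from the pair correlations of the sifted sets `{n : m_i - n without small prime factors}` relative to
ALL primes, which are nearly orthogonal. Then Richert's weighted sieve of level `111/200 > 1/2` and the large sieve inequality for the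
shifts, for an arbitrary bounded weight in place of the primes. The second part needs a second moment and high moments of the
singular series.
-/

set_option autoImplicit false

namespace Pool.Agent.Results.MP_7b7e48_nt.ChenArbitraryPrimes

open Finset Filter

/-- the multiples of `W` in `(N, N + H]` -/
def multiples (W N H : ℕ) : Finset ℕ := (Ioc N (N + H)).filter (fun m => W ∣ m)

open Classical in
/-- the number of the `p` in `P` such that every `m - p`, `m ∈ M`, is an integer `> 1` with at most two prime factors (counted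
with multiplicity), all of them at least `N ^ (1/7)` -/
noncomputable def count (N : ℕ) (P M : Finset ℕ) : ℕ :=
  (P.filter (fun p => ∀ m ∈ M, 1 < m - p ∧ (m - p).primeFactorsList.length ≤ 2 ∧
    ∀ q ∈ (m - p).primeFactors, (N : ℝ) ^ (1 / 7 : ℝ) ≤ q)).card

open Classical in
/-- the number of the `p` in `P` such that every `m - p`, `m ∈ M`, is prime to `W` -/
noncomputable def prime_to (W : ℕ) (P M : Finset ℕ) : ℕ := (P.filter (fun p => ∀ m ∈ M, (m - p).Coprime W)).card

section
open Pool.Agent.J4.H38.DV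
open Pool.Agent.J4.H38.GD
open Pool.Agent.Y822
open Pool.Agent.H373R2.T7 (pz Vz mem_pz)

/-- reflection -/
lemma piD_le {N : ℕ} {P M : Finset ℕ} (hM : ∀ m ∈ M, N < m) :
    piD P (M.image (fun m => m - N)) N ≤ count N P M := by
  classical
  unfold piD count
  refine card_le_card_of_injOn (fun n => N - n) (fun n hn => ?_) fun n hn n' hn' h => ?_
  · rw [mem_coe, mem_filter, mem_Icc] at hn
    rw [mem_coe, mem_filter]
    obtain ⟨⟨h1, h2⟩, h3, h4⟩ := hn
    refine ⟨h3, fun m hm => ?_⟩
    have hNm := hM m hm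
    have e : m - (N - n) = n + (m - N) := by omega
    simp only
    rw [e]
    exact ⟨by omega, h4 _ (mem_image_of_mem _ hm)⟩
  · rw [mem_coe, mem_filter, mem_Icc] at hn hn'
    simp only at h
    omega

/-- the shifts -/
lemma cmp_eq {w N : ℕ} {P M : Finset ℕ} (hP : P ⊆ (Icc 1 N).filter Nat.Prime) (hM : ∀ m ∈ M, N < m) :
    Pool.Agent.J4.H38.GD.cmp w N P (M.image (fun m => m - N)) = prime_to (∏ p ∈ pz w, p) P M := by
  classical
  unfold Pool.Agent.J4.H38.GD.cmp prime_to
  refine congrArg card (filter_congr fun p hp => ?_)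
  have h1 := (mem_Icc.1 (mem_filter.1 (hP hp)).1).2
  have e : ∀ m ∈ M, N - p + (m - N) = m - p := fun m hm => by
    have := hM m hm
    omega
  constructor
  · intro h m hm
    have h2 := h _ (mem_image_of_mem _ hm)
    rw [e m hm] at h2
    exact (Ro_iff w _).1 h2
  · intro h t ht
    obtain ⟨m, hm, rfl⟩ := mem_image.1 ht
    rw [e m hm]
    exact (Ro_iff w _).2 (h m hm)

/-- the translation of a family of sets -/
lemma shift_card (N H k : ℕ) (F : Finset ℕ → Prop) [DecidablePred F] (G : Finset ℕ → Prop) [DecidablePred G]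
    (hFG : ∀ M ∈ (Ioc N (N + H)).powersetCard k, (F M ↔ G (M.image (fun m => m - N)))) :
    (((Ioc N (N + H)).powersetCard k).filter F).card = (((Icc 1 H).powersetCard k).filter G).card := by
  classical
  have hN : ∀ M ∈ (Ioc N (N + H)).powersetCard k, ∀ m ∈ M, N < m := fun M hM m hm =>
    (mem_Ioc.1 ((mem_powersetCard.1 hM).1 hm)).1
  have back : ∀ M ∈ (Ioc N (N + H)).powersetCard k, (M.image (fun m => m - N)).image (fun t => N + t) = M := by
    intro M hM
    rw [image_image]
    conv_rhs => rw [← image_id (s := M)]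
    refine image_congr fun m hm => ?_
    have := hN M hM m hm
    simp only [Function.comp, id]
    omega
  refine card_bij (fun M _ => M.image (fun m => m - N)) (fun M hM => ?_) (fun M hM M' hM' hE => ?_) fun D hD => ?_
  · rw [mem_filter] at hM ⊢
    refine ⟨?_, (hFG M hM.1).1 hM.2⟩
    have h1 := mem_powersetCard.1 hM.1
    rw [mem_powersetCard]
    refine ⟨fun t ht => ?_, ?_⟩
    · obtain ⟨m, hm, rfl⟩ := mem_image.1 ht
      have := mem_Ioc.1 (h1.1 hm)
      rw [mem_Icc]
      omega
    · rw [card_image_of_injOn, h1.2]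
      intro a ha b hb hE
      have h2 := hN M hM.1 a ha
      have h3 := hN M hM.1 b hb
      simp only at hE
      omega
  · rw [mem_filter] at hM hM'
    have h1 := congrArg (fun D : Finset ℕ => D.image (fun t => N + t)) hE
    rwa [back M hM.1, back M' hM'.1] at h1
  · rw [mem_filter] at hD
    have h1 := mem_powersetCard.1 hD.1
    have hM : D.image (fun t => N + t) ∈ (Ioc N (N + H)).powersetCard k := by
      rw [mem_powersetCard]
      refine ⟨fun m hm => ?_, ?_⟩
      · obtain ⟨t, ht, rfl⟩ := mem_image.1 hm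
        have := mem_Icc.1 (h1.1 ht)
        rw [mem_Ioc]
        omega
      · rw [card_image_of_injective _ (fun a b h => by simpa using h), h1.2]
    have e : (D.image (fun t => N + t)).image (fun m => m - N) = D := by
      rw [image_image]
      conv_rhs => rw [← image_id (s := D)]
      refine image_congr fun t _ => ?_
      change N + t - N = t
      omega
    refine ⟨D.image (fun t => N + t), ?_, e⟩
    rw [mem_filter]
    exact ⟨hM, (hFG _ hM).2 (by rw [e]; exact hD.2)⟩

/-- the product of the primes up to `w` -/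
lemma W_pos (w : ℕ) : 1 ≤ ∏ p ∈ pz w, p := prod_pos fun _ hp => (mem_pz.1 hp).2.pos

/-- the number of the multiples -/
lemma card_multiples {W : ℕ} (hW : 1 ≤ W) (N H : ℕ) :
    ((multiples W N H).card : ℝ) ≤ H / W + 1 ∧ (H : ℝ) / W - 1 ≤ (multiples W N H).card := by
  have hWr : (0 : ℝ) < W := by exact_mod_cast hW
  have h1 : (multiples W N H).card + N / W = (N + H) / W := by
    unfold multiples
    rw [← Nat.Ioc_filter_dvd_card_eq_div N W, ← Nat.Ioc_filter_dvd_card_eq_div (N + H) W,
      ← card_union_of_disjoint]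
    · congr 1
      ext m
      simp only [mem_union, mem_filter, mem_Ioc]
      constructor
      · rintro (⟨⟨h1, h2⟩, h3⟩ | ⟨⟨h1, h2⟩, h3⟩)
        · exact ⟨⟨by omega, h2⟩, h3⟩
        · exact ⟨⟨h1, by omega⟩, h3⟩
      · rintro ⟨⟨h1, h2⟩, h3⟩
        by_cases h : N < m
        · exact Or.inl ⟨⟨h, h2⟩, h3⟩
        · exact Or.inr ⟨⟨h1, by omega⟩, h3⟩
    · rw [disjoint_left]
      intro m hm hm'
      have h1 := (mem_Ioc.1 (mem_filter.1 hm).1).1
      have h2 := (mem_Ioc.1 (mem_filter.1 hm').1).2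
      omega
  have h2 : (((N + H) / W : ℕ) : ℝ) ≤ ((N : ℝ) + H) / W := by
    have := Nat.cast_div_le (α := ℝ) (m := N + H) (n := W)
    push_cast at this
    exact this
  have h3 : (N : ℝ) / W ≤ ((N / W : ℕ) : ℝ) + 1 := by
    rw [div_le_iff₀ hWr]
    have := Nat.lt_div_mul_add (a := N) hW
    have h4 : (N : ℝ) ≤ ((N / W * W + W : ℕ) : ℝ) := by exact_mod_cast this.le
    push_cast at h4
    linarith
  have h4 : ((multiples W N H).card : ℝ) + ((N / W : ℕ) : ℝ) = (((N + H) / W : ℕ) : ℝ) := by exact_mod_cast h1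
  rw [add_div] at h2
  refine ⟨by linarith, ?_⟩
  have h5 : ((N : ℝ) + H) / W ≤ (((N + H) / W : ℕ) : ℝ) + 1 := by
    rw [div_le_iff₀ hWr]
    have := Nat.lt_div_mul_add (a := N + H) hW
    have h4 : ((N + H : ℕ) : ℝ) ≤ (((N + H) / W * W + W : ℕ) : ℝ) := by exact_mod_cast this.le
    push_cast at h4
    linarith
  have h6 : ((N / W : ℕ) : ℝ) ≤ (N : ℝ) / W := Nat.cast_div_le
  rw [add_div] at h5
  linarith

/-- the shifts -/
lemma multiples_eq (w N H : ℕ) : (AW w N H).image (fun t => N + t) = multiples (∏ p ∈ pz w, p) N H := by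
  ext m
  unfold AW multiples
  rw [mem_image, mem_filter, mem_Ioc]
  constructor
  · rintro ⟨t, ht, rfl⟩
    rw [mem_filter, mem_Icc] at ht
    exact ⟨⟨by omega, by omega⟩, ht.2⟩
  · rintro ⟨⟨h1, h2⟩, h3⟩
    refine ⟨m - N, ?_, by omega⟩
    rw [mem_filter, mem_Icc, show N + (m - N) = m by omega]
    exact ⟨⟨by omega, by omega⟩, h3⟩

/-- the main theorem for sets of multiples -/
lemma core : ∃ c : ℝ, 0 < c ∧ ∀ k : ℕ, 1 ≤ k → ∀ δ ε : ℝ, 0 < δ → 0 < ε → ∃ (W : ℕ) (Λ : ℝ) (N₀ : ℕ), 1 ≤ W ∧
    2 ∣ W ∧ 0 < Λ ∧ ∀ N : ℕ, N₀ ≤ N → ∀ P ⊆ (Icc 1 N).filter Nat.Prime, δ * (N / Real.log N) ≤ P.card →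
    ∀ H : ℕ, Λ * Real.log N ≤ H → H ≤ N → ∀ Bad : Finset (Finset ℕ),
    (∀ M ∈ Bad, M ∈ (multiples W N H).powersetCard k ∧ (count N P M : ℝ) < c ^ k * (P.card / Real.log N ^ k)) →
    (Bad.card : ℝ) ≤ ε * ((multiples W N H).card : ℝ) ^ k := by
  classical
  obtain ⟨c, hc, hmain⟩ := denseG
  refine ⟨c, hc, fun k hk δ ε hδ hε => ?_⟩
  obtain ⟨j, rfl⟩ : ∃ j, k = j + 1 := ⟨k - 1, by omega⟩
  obtain ⟨w, hw, Λ, hΛ, h⟩ := hmain j δ ε hδ hε
  obtain ⟨N₀, hN₀⟩ := eventually_atTop.1 h
  refine ⟨∏ p ∈ pz w, p, Λ, N₀, W_pos w, dvd_prod_of_mem _ (mem_pz.2 ⟨hw, Nat.prime_two⟩), hΛ,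
    fun N hN P hP hPc H hH1 hH2 Bad hBad => ?_⟩
  have hinjN : Function.Injective (fun t : ℕ => N + t) := fun a b h => by simpa using h
  have hcard : (multiples (∏ p ∈ pz w, p) N H).card = (AW w N H).card := by
    rw [← multiples_eq, card_image_of_injective _ hinjN]
  have hMN : ∀ M ∈ Bad, ∀ m ∈ M, N < m := fun M hM m hm =>
    (mem_Ioc.1 (mem_filter.1 ((mem_powersetCard.1 (hBad M hM).1).1 hm)).1).1
  have hinj : Set.InjOn (fun M : Finset ℕ => M.image (fun m => m - N)) (Bad : Set (Finset ℕ)) := by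
    intro M hM M' hM' hE
    have key : ∀ M ∈ Bad, (M.image (fun m => m - N)).image (fun t => N + t) = M := by
      intro M hM
      rw [image_image]
      conv_rhs => rw [← image_id (s := M)]
      refine image_congr fun m hm => ?_
      have := hMN M hM m hm
      simp only [Function.comp, id]
      omega
    have h1 := congrArg (fun D : Finset ℕ => D.image (fun t => N + t)) hE
    simp only at h1
    rwa [key M hM, key M' hM'] at h1
  have h1 := hN₀ N hN H hH1 hH2 P hP hPc (Bad.image (fun M : Finset ℕ => M.image (fun m => m - N))) ?_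
  · rw [card_image_of_injOn hinj] at h1
    rw [hcard]
    exact h1
  · intro D hD
    obtain ⟨M, hM, rfl⟩ := mem_image.1 hD
    obtain ⟨b1, b2⟩ := hBad M hM
    rw [mem_powersetCard] at b1
    refine ⟨?_, lt_of_le_of_lt ?_ b2⟩
    · rw [mem_powersetCard]
      refine ⟨?_, ?_⟩
      · intro t ht
        obtain ⟨m, hm, rfl⟩ := mem_image.1 ht
        have h2 := b1.1 hm
        rw [← multiples_eq, mem_image] at h2
        obtain ⟨t, ht, h3⟩ := h2
        have h4 : m - N = t := by omega
        rw [h4]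
        exact ht
      · rw [card_image_of_injOn, b1.2]
        intro a ha b hb hE
        have h2 := hMN M hM a ha
        have h3 := hMN M hM b hb
        simp only at hE
        omega
    · exact_mod_cast piD_le (hMN M hM)

end

open Classical in
/-- **Every set of primes.** There is an absolute constant `c > 0` with the following properties.

(1) For all `k ≥ 1` and `ε > 0` there are `W ≥ 1`, `Λ` and `N₀` such that for all `N ≥ N₀`, ANY set `P` of primes `p ≤ N` and all
`H` with `Λ log N ≤ H ≤ N`, for all but at most `ε (φ(W) H / W) ^ k` of the sets `M` of `k` elements of `(N, N + H]` the number of the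
primes `p` in `P` such that all the `m - p`, `m ∈ M`, have at most two prime factors, all of them at least `N ^ (1/7)`, is at
least `c ^ k / (log N) ^ k` times `(W / φ(W)) ^ k #{p ∈ P : all m - p are prime to W} - ε N / log N`.

(2) For every `k ≥ 1` there is `c' > 0` such that for all `0 < δ ≤ 1` there are `Λ` and `N₀` such that for all `N ≥ N₀`, ANY set `P` of
at least `δ N / log N` primes `p ≤ N` and all `H` with `Λ log N ≤ H ≤ N`, at least `c' (H / log log (16 / δ)) ^ k` of the sets `M`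
of `k` elements of `(N, N + H]` have the property that there are at least `c' #P / (log N) ^ k` primes `p` in `P` such that all the
`m - p`, `m ∈ M`, have at most two prime factors, all of them at least `N ^ (1/7)`.

(3) For the multiples of a fixed `W` there are even fewer exceptions, relative to their number: for all `k ≥ 1` and `δ, ε > 0` there
are an even `W`, `Λ` and `N₀` such that for all these `N`, `P`, `H` for all but at most `ε (H / W) ^ k` of the sets `M` of `k` multiples of
`W` in `(N, N + H]` there are at least `c ^ k #P / (log N) ^ k` such primes `p` in `P`. -/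
theorem result :
    (∃ c : ℝ, 0 < c ∧ ∀ k : ℕ, 1 ≤ k → ∀ ε : ℝ, 0 < ε → ∃ (W : ℕ) (Λ : ℝ) (N₀ : ℕ), 1 ≤ W ∧ 0 < Λ ∧
      ∀ N : ℕ, N₀ ≤ N → ∀ P ⊆ (Icc 1 N).filter Nat.Prime, ∀ H : ℕ, Λ * Real.log N ≤ H → H ≤ N →
        ((((Ioc N (N + H)).powersetCard k).filter (fun M => (count N P M : ℝ) <
          c ^ k * ((((W : ℝ) / W.totient) ^ k * prime_to W P M - ε * (N / Real.log N)) / Real.log N ^ k))).card : ℝ) ≤
          ε * ((W.totient : ℝ) / W * H) ^ k) ∧
    (∀ k : ℕ, 1 ≤ k → ∃ c' : ℝ, 0 < c' ∧ ∀ δ : ℝ, 0 < δ → δ ≤ 1 → ∃ (Λ : ℝ) (N₀ : ℕ), 0 < Λ ∧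
      ∀ N : ℕ, N₀ ≤ N → ∀ P ⊆ (Icc 1 N).filter Nat.Prime, δ * (N / Real.log N) ≤ P.card →
      ∀ H : ℕ, Λ * Real.log N ≤ H → H ≤ N →
        c' * (H / Real.log (Real.log (16 / δ))) ^ k ≤ ((((Ioc N (N + H)).powersetCard k).filter (fun M =>
          c' * (P.card / Real.log N ^ k) ≤ count N P M)).card : ℝ)) ∧
    ∃ c : ℝ, 0 < c ∧ ∀ k : ℕ, 1 ≤ k → ∀ δ ε : ℝ, 0 < δ → 0 < ε → ∃ (W : ℕ) (Λ : ℝ) (N₀ : ℕ), 1 ≤ W ∧ 2 ∣ W ∧ 0 < Λ ∧
      ∀ N : ℕ, N₀ ≤ N → ∀ P ⊆ (Icc 1 N).filter Nat.Prime, δ * (N / Real.log N) ≤ P.card →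
      ∀ H : ℕ, Λ * Real.log N ≤ H → H ≤ N →
        ((((multiples W N H).powersetCard k).filter (fun M =>
          (count N P M : ℝ) < c ^ k * (P.card / Real.log N ^ k))).card : ℝ) ≤ ε * ((H : ℝ) / W) ^ k := by
  classical
  obtain ⟨c, hc, hmain⟩ := Pool.Agent.J4.H38.GD.anyG
  have hlim : Tendsto (fun N : ℕ => Real.log (N : ℝ)) atTop atTop :=
    Real.tendsto_log_atTop.comp (tendsto_natCast_atTop_atTop (R := ℝ))
  have hMN : ∀ N H k : ℕ, ∀ M ∈ (Ioc N (N + H)).powersetCard k, ∀ m ∈ M, N < m := fun N H k M hM m hm =>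
    (mem_Ioc.1 ((mem_powersetCard.1 hM).1 hm)).1
  obtain ⟨cD, hcD, hmainD⟩ := core
  obtain ⟨N₁, hN₁⟩ := eventually_atTop.1 (hlim.eventually_ge_atTop 1)
  refine ⟨⟨c, hc, fun k hk ε hε => ?_⟩, fun k hk => ?_, cD, hcD, fun k hk δ ε hδ hε => ?_⟩
  · obtain ⟨j, rfl⟩ : ∃ j, k = j + 1 := ⟨k - 1, by omega⟩
    obtain ⟨w, hw, Λ, hΛ, h⟩ := hmain j ε hε
    obtain ⟨N₀, hN₀⟩ := eventually_atTop.1 h
    have hv := Pool.Agent.J4.H38.SR.Vz_pos' w
    have hW1 : 1 ≤ ∏ p ∈ Pool.Agent.H373R2.T7.pz w, p :=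
      prod_pos fun _ hp => (Pool.Agent.H373R2.T7.mem_pz.1 hp).2.pos
    have htot := Pool.Agent.J4.H38.GD.totient_prod w
    refine ⟨∏ p ∈ Pool.Agent.H373R2.T7.pz w, p, Λ, N₀, hW1, hΛ, fun N hN P hP H hH1 hH2 => ?_⟩
    have hWr : (0 : ℝ) < ((∏ p ∈ Pool.Agent.H373R2.T7.pz w, p : ℕ) : ℝ) := by exact_mod_cast hW1
    have e1 : ((∏ p ∈ Pool.Agent.H373R2.T7.pz w, p : ℕ) : ℝ) / ((∏ p ∈ Pool.Agent.H373R2.T7.pz w, p : ℕ).totient : ℝ) =
        1 / Pool.Agent.H373R2.T7.Vz w := by
      rw [htot]
      field_simp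
    have e2 : ((∏ p ∈ Pool.Agent.H373R2.T7.pz w, p : ℕ).totient : ℝ) / ((∏ p ∈ Pool.Agent.H373R2.T7.pz w, p : ℕ) : ℝ) =
        Pool.Agent.H373R2.T7.Vz w := by
      rw [htot]
      field_simp
    rw [e1, e2]
    obtain ⟨B, hB⟩ : ∃ B, B = ((Ioc N (N + H)).powersetCard (j + 1)).filter (fun M => (count N P M : ℝ) <
          c ^ (j + 1) * (((1 / Pool.Agent.H373R2.T7.Vz w) ^ (j + 1) *
            prime_to (∏ p ∈ Pool.Agent.H373R2.T7.pz w, p) P M - ε * (N / Real.log N)) / Real.log N ^ (j + 1))) := ⟨_, rfl⟩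
    obtain ⟨B', hB'⟩ : ∃ B', B' = ((Icc 1 H).powersetCard (j + 1)).filter (fun D => D ∈ B.image
      (fun M : Finset ℕ => M.image (fun m => m - N))) := ⟨_, rfl⟩
    have hcard : B.card = B'.card := by
      have h1 := shift_card N H (j + 1) (fun M => M ∈ B) (fun D => D ∈ B.image
        (fun M : Finset ℕ => M.image (fun m => m - N))) ?_
      · rw [← hB'] at h1
        rw [← h1]
        congr 1
        ext M
        rw [mem_filter]
        refine ⟨fun hM => ⟨?_, hM⟩, fun hM => hM.2⟩
        rw [hB, mem_filter] at hM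
        exact hM.1
      · intro M hM
        refine ⟨fun h1 => mem_image_of_mem _ h1, fun h1 => ?_⟩
        obtain ⟨M', hM', hE⟩ := mem_image.1 h1
        have hM'2 : M' ∈ (Ioc N (N + H)).powersetCard (j + 1) := by
          rw [hB, mem_filter] at hM'
          exact hM'.1
        have back : ∀ M ∈ (Ioc N (N + H)).powersetCard (j + 1),
            (M.image (fun m => m - N)).image (fun t => N + t) = M := by
          intro M hM
          rw [image_image]
          conv_rhs => rw [← image_id (s := M)]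
          refine image_congr fun m hm => ?_
          have := hMN N H _ M hM m hm
          simp only [Function.comp, id]
          omega
        have h2 := congrArg (fun D : Finset ℕ => D.image (fun t => N + t)) hE
        rw [back M hM, back M' hM'2] at h2
        rw [← h2]
        exact hM'
    rw [← hB, hcard]
    refine hN₀ N hN H hH1 hH2 P hP B' fun D hD => ?_
    rw [hB', mem_filter] at hD
    refine ⟨hD.1, ?_⟩
    obtain ⟨M, hM, rfl⟩ := mem_image.1 hD.2
    rw [hB, mem_filter] at hM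
    rw [cmp_eq hP (hMN N H _ M hM.1)]
    refine lt_of_le_of_lt ?_ hM.2
    exact_mod_cast piD_le (hMN N H _ M hM.1)
  · obtain ⟨cs, hcs, hS⟩ := Pool.Agent.J4.H38.GD.sharp k hk
    obtain ⟨j, rfl⟩ : ∃ j, k = j + 1 := ⟨k - 1, by omega⟩
    refine ⟨min (cs / 2) ((c / 2) ^ (j + 1) / 4), lt_min (by positivity) (by positivity), fun δ hδ hδ1 => ?_⟩
    have hll := Pool.Agent.J4.H38.GD.one_lt_loglog hδ hδ1
    obtain ⟨ll, hld⟩ : ∃ ll : ℝ, ll = Real.log (Real.log (16 / δ)) := ⟨_, rfl⟩
    rw [← hld] at hll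
    have hll0 : 0 < ll := by linarith
    obtain ⟨ε, hεd⟩ : ∃ ε : ℝ, ε = min (δ / (4 * 2 ^ (j + 1))) (cs / (2 * ll ^ (j + 1))) := ⟨_, rfl⟩
    have hε : 0 < ε := by rw [hεd]; exact lt_min (by positivity) (by positivity)
    have hε1 : ε ≤ δ / (4 * 2 ^ (j + 1)) := by rw [hεd]; exact min_le_left _ _
    have hε2 : ε ≤ cs / (2 * ll ^ (j + 1)) := by rw [hεd]; exact min_le_right _ _
    obtain ⟨w, hw, Λ, hΛ, h⟩ := hmain j ε hε
    obtain ⟨N₀, hN₀⟩ := eventually_atTop.1 h
    obtain ⟨N₃, hN₃⟩ := hS δ hδ hδ1 w hw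
    obtain ⟨N₂, hN₂⟩ := eventually_atTop.1 (hlim.eventually_ge_atTop 1)
    have hv := Pool.Agent.J4.H38.SR.Vz_pos' w
    have hv1 := Pool.Agent.J4.H38.GD.Vz_le_one w
    refine ⟨max Λ N₃, max (max N₀ N₃) N₂, lt_max_of_lt_left hΛ, fun N hN P hP hPc H hH1 hH2 => ?_⟩
    have hL1 := hN₂ N ((le_max_right _ _).trans hN)
    have hL0 : 0 < Real.log N := by linarith
    have hHΛ : Λ * Real.log N ≤ H := (mul_le_mul_of_nonneg_right (le_max_left _ _) hL0.le).trans hH1
    have hHN : N₃ ≤ H := by
      have h1 : (N₃ : ℝ) ≤ H := by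
        calc (N₃ : ℝ) = N₃ * 1 := (mul_one _).symm
          _ ≤ N₃ * Real.log N := mul_le_mul_of_nonneg_left hL1 (Nat.cast_nonneg _)
          _ ≤ max Λ N₃ * Real.log N := mul_le_mul_of_nonneg_right (le_max_right _ _) hL0.le
          _ ≤ H := hH1
      exact_mod_cast h1
    have hs := hN₃ N H ((le_max_right _ _).trans ((le_max_left _ _).trans hN)) hHN P hP hPc (fun p => N - p) ?_
    swap
    · intro p hp q hq
      have h1 := (mem_Icc.1 (mem_filter.1 (hP hp)).1).2
      have h2 := (mem_Icc.1 (mem_filter.1 (hP hq)).1).2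
      right
      push_cast [Nat.cast_sub h1, Nat.cast_sub h2]
      ring
    rw [← hld] at hs ⊢
    obtain ⟨S1, hS1⟩ : ∃ S1, S1 = ((Icc 1 H).powersetCard (j + 1)).filter (fun D =>
      1 / 2 * (1 / 2 * Pool.Agent.H373R2.T7.Vz w) ^ (j + 1) * (P.card : ℝ) ≤
        ((P.filter (fun p => ∀ t ∈ D, Pool.Agent.Y822.Ro w (N - p + t))).card : ℝ)) := ⟨_, rfl⟩
    rw [← hS1] at hs
    obtain ⟨B, hB⟩ : ∃ B, B = ((Icc 1 H).powersetCard (j + 1)).filter (fun D =>
      (Pool.Agent.J4.H38.DV.piD P D N : ℝ) < c ^ (j + 1) * (((1 / Pool.Agent.H373R2.T7.Vz w) ^ (j + 1) *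
        Pool.Agent.J4.H38.GD.cmp w N P D - ε * (N / Real.log N)) / Real.log N ^ (j + 1))) := ⟨_, rfl⟩
    have hBc := hN₀ N ((le_max_left _ _).trans ((le_max_left _ _).trans hN)) H hHΛ hH2 P hP B
      fun D hD => by rw [hB, mem_filter] at hD; exact hD
    have hH0 : (0 : ℝ) ≤ H := Nat.cast_nonneg _
    have hBc2 : (B.card : ℝ) ≤ cs / 2 * (H / ll) ^ (j + 1) := by
      refine hBc.trans ?_
      have h1 : (Pool.Agent.H373R2.T7.Vz w * H) ^ (j + 1) ≤ (H : ℝ) ^ (j + 1) :=
        pow_le_pow_left₀ (by positivity) (by nlinarith) _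
      calc ε * (Pool.Agent.H373R2.T7.Vz w * H) ^ (j + 1) ≤ cs / (2 * ll ^ (j + 1)) * (H : ℝ) ^ (j + 1) :=
            mul_le_mul hε2 h1 (by positivity) (by positivity)
        _ = _ := by rw [div_pow]; field_simp
    obtain ⟨F, hF⟩ : ∃ F : Finset (Finset ℕ), F = ((Ioc N (N + H)).powersetCard (j + 1)).filter (fun M =>
          min (cs / 2) ((c / 2) ^ (j + 1) / 4) * (P.card / Real.log N ^ (j + 1)) ≤ count N P M) := ⟨_, rfl⟩
    obtain ⟨F', hF'⟩ : ∃ F' : Finset (Finset ℕ), F' = ((Icc 1 H).powersetCard (j + 1)).filter (fun D =>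
          min (cs / 2) ((c / 2) ^ (j + 1) / 4) * (P.card / Real.log N ^ (j + 1)) ≤
            count N P (D.image (fun t => N + t))) := ⟨_, rfl⟩
    have back : ∀ M ∈ (Ioc N (N + H)).powersetCard (j + 1),
        (M.image (fun m => m - N)).image (fun t => N + t) = M := by
      intro M hM
      rw [image_image]
      conv_rhs => rw [← image_id (s := M)]
      refine image_congr fun m hm => ?_
      have := hMN N H _ M hM m hm
      simp only [Function.comp, id]
      omega
    have hFF : F.card = F'.card := by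
      rw [hF, hF']
      refine shift_card N H (j + 1) _ _ fun M hM => ?_
      rw [back M hM]
    rw [← hF, hFF]
    have hsub : S1 \ B ⊆ F' := by
      intro D hD
      rw [Finset.mem_sdiff] at hD
      obtain ⟨h1, h2⟩ := hD
      rw [hS1, mem_filter] at h1
      rw [hF', mem_filter]
      refine ⟨h1.1, ?_⟩
      have h3 : ¬ (Pool.Agent.J4.H38.DV.piD P D N : ℝ) < c ^ (j + 1) * (((1 / Pool.Agent.H373R2.T7.Vz w) ^ (j + 1) *
        Pool.Agent.J4.H38.GD.cmp w N P D - ε * (N / Real.log N)) / Real.log N ^ (j + 1)) := fun h4 =>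
        h2 (by rw [hB, mem_filter]; exact ⟨h1.1, h4⟩)
      have e : (D.image (fun t => N + t)).image (fun m => m - N) = D := by
        rw [image_image]
        conv_rhs => rw [← image_id (s := D)]
        refine image_congr fun t _ => ?_
        change N + t - N = t
        omega
      have h5 := piD_le (N := N) (P := P) (M := D.image (fun t => N + t)) fun m hm => by
        obtain ⟨t, ht, rfl⟩ := mem_image.1 hm
        have := (mem_Icc.1 ((mem_powersetCard.1 h1.1).1 ht)).1
        omega
      rw [e] at h5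
      have h5' : (Pool.Agent.J4.H38.DV.piD P D N : ℝ) ≤ count N P (D.image (fun t => N + t)) := by exact_mod_cast h5
      have h6 := Pool.Agent.J4.H38.GD.calcS (k := j + 1) (c0 := c) (v := Pool.Agent.H373R2.T7.Vz w)
        (q := (Pool.Agent.J4.H38.GD.cmp w N P D : ℝ)) (Pc := (P.card : ℝ)) (δ := δ) (ε := ε) (X := N / Real.log N)
        (L := Real.log N) (C := count N P (D.image (fun t => N + t))) hv hc hL0 hδ hPc hε1 (by positivity)
        (by unfold Pool.Agent.J4.H38.GD.cmp; exact h1.2) ((not_lt.1 h3).trans h5')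
      refine le_trans ?_ h6
      exact mul_le_mul_of_nonneg_right (min_le_right _ _) (by positivity)
    have h1 := card_le_card hsub
    have h2 : S1.card ≤ (S1 \ B).card + B.card := by
      have := le_card_sdiff B S1
      omega
    have h3 : (S1.card : ℝ) ≤ F'.card + B.card := by exact_mod_cast h2.trans (Nat.add_le_add_right h1 _)
    have h4 : min (cs / 2) ((c / 2) ^ (j + 1) / 4) * (H / ll) ^ (j + 1) ≤ cs / 2 * (H / ll) ^ (j + 1) :=
      mul_le_mul_of_nonneg_right (min_le_left _ _) (by positivity)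
    linarith
  · obtain ⟨W, Λ, N₀, hW, hW2, hΛ, h⟩ := hmainD k hk δ (ε / 2 ^ k) hδ (by positivity)
    have hWr : (0 : ℝ) < W := by exact_mod_cast hW
    refine ⟨W, max Λ W, max N₀ N₁, hW, hW2, lt_max_of_lt_left hΛ, fun N hN P hP hPc H hH1 hH2 => ?_⟩
    have hL1 := hN₁ N ((le_max_right _ _).trans hN)
    have hHΛ : Λ * Real.log N ≤ H := (mul_le_mul_of_nonneg_right (le_max_left _ _) (by linarith)).trans hH1
    have hHW : (W : ℝ) ≤ H := by
      calc (W : ℝ) = W * 1 := (mul_one _).symm
        _ ≤ W * Real.log N := mul_le_mul_of_nonneg_left hL1 hWr.le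
        _ ≤ max Λ W * Real.log N := mul_le_mul_of_nonneg_right (le_max_right _ _) (by linarith)
        _ ≤ H := hH1
    refine (h N ((le_max_left _ _).trans hN) P hP hPc H hHΛ hH2 _ fun M hM => mem_filter.1 hM).trans ?_
    have h1 : (1 : ℝ) ≤ H / W := by rwa [le_div_iff₀ hWr, one_mul]
    have h2 := (card_multiples hW N H).1
    have h3 : ((multiples W N H).card : ℝ) ^ k ≤ (2 * ((H : ℝ) / W)) ^ k :=
      pow_le_pow_left₀ (Nat.cast_nonneg _) (by linarith) k
    calc ε / 2 ^ k * ((multiples W N H).card : ℝ) ^ k ≤ ε / 2 ^ k * (2 * ((H : ℝ) / W)) ^ k :=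
          mul_le_mul_of_nonneg_left h3 (by positivity)
      _ = ε * ((H : ℝ) / W) ^ k := by
          rw [mul_pow]
          field_simp

end Pool.Agent.Results.MP_7b7e48_nt.ChenArbitraryPrimes
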