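import Mathlib
import Pool.Agent.J4.H38.CH.Fin

/-!
# Chen's theorem for `k + 1` even numbers with a common prime, for EVERY large even `N`

Goldbach's conjecture: every even `N > 2` is a sum of two primes. Chen: every large even `N` is the sum of a prime `p` and a
number with at most two prime factors. Here, for EVERY large even `N` and for almost all sets `D` of `k` elements of `[1, H]`,
where `H` is only a large multiple of `log N`, the `k + 1` even numbers `N` and `N + d`, `d ∈ D`, have such a
representation with the SAME prime `p`: `N - p` and all the `N + d - p` have at most two prime factors. The number of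
these `p` is of the right order `𝔖 N / (log N) ^ (k + 2)`, with the singular series `𝔖` of Hardy and Littlewood of the `k + 2`
conditions, and the constant is the `(k + 1)`-st power of an absolute constant. All prime factors are at least `N ^ (1/8)`.

Method: `N - p` is treated by Chen's switching, for primes `p` such that all the `N + d - p` are free of prime factors
`≤ N ^ κ`: this needs theorems of Bombieri and Vinogradov for such primes and for the products `p₁ p₂ p₃` with the same
condition. The `N + d - p` are then treated, one after the other, with Richert's weighted sieve of level `111/200 > 1/2` and a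
large sieve inequality for the shifts `d`, whose Gram matrix is estimated beyond the level `1/2` by bounds for trilinear
Kloosterman sums; since the interval of the shifts is so short, all estimates are relative to the set of the `n`
for which `n`, `N - n` and the `n + d` are free of small prime factors, uniformly in `N`.
-/

set_option autoImplicit false

namespace Pool.Agent.Results.MP_7b7e48_nt.ChenCommonPrime

open Finset Filter

open Classical in
/-- `ω(q)`: the number of the residues `p mod q` with `p (N - p) ∏ (N + d - p) ≡ 0 (mod q)`, the product over `d ∈ D` -/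
noncomputable def omega (N : ℕ) (D : Finset ℕ) (q : ℕ) : ℕ :=
  ((range q).filter (fun p : ℕ => (q : ℤ) ∣ (p : ℤ) * ((N : ℤ) - p) * ∏ d ∈ D, ((N : ℤ) + d - p))).card

/-- no prime `q` divides `p (N - p) ∏ (N + d - p)` for all `p`; this implies that `N` is even -/
def Admissible (N : ℕ) (D : Finset ℕ) : Prop := ∀ q : ℕ, q.Prime → omega N D q < q

/-- the factor of the singular series -/
noncomputable def factor (N : ℕ) (D : Finset ℕ) (q : ℕ) : ℝ :=
  (1 - (omega N D q : ℝ) / q) / (1 - 1 / (q : ℝ)) ^ (D.card + 2)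

/-- the singular series, a convergent product over the primes -/
noncomputable def singular (N : ℕ) (D : Finset ℕ) : ℝ := ∏' q : Nat.Primes, factor N D q

open Classical in
/-- the number of the primes `p < N` such that `N - p` is an integer `> 1` with at most two prime factors (counted with
multiplicity), all of them at least `N ^ (1/8)`, and every `N + d - p`, `d ∈ D`, has at most two prime factors, all of
them at least `N ^ (1/7)` -/
noncomputable def count (N : ℕ) (D : Finset ℕ) : ℕ :=
  ((range N).filter (fun p => p.Prime ∧ (1 < N - p ∧ (N - p).primeFactorsList.length ≤ 2 ∧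
    ∀ q ∈ (N - p).primeFactors, (N : ℝ) ^ (1 / 8 : ℝ) ≤ q) ∧
    ∀ d ∈ D, (N + d - p).primeFactorsList.length ≤ 2 ∧
      ∀ q ∈ (N + d - p).primeFactors, (N : ℝ) ^ (1 / 7 : ℝ) ≤ q)).card

section
open Pool.Agent.J4.H38.SR Pool.Agent.J4.H38.SR2 Pool.Agent.J4.H38.SR3 Pool.Agent.Y822 Pool.Agent.J4.H38.CH
open Pool.Agent.H387R2.Uni (nuT Adm locT CT CT_hasProd)

lemma omega_eq (N : ℕ) (D : Finset ℕ) {q : ℕ} (hq : q.Prime) :
    omega N D q = nuT (pat (sh N (insert 0 D))) q := by
  classical
  unfold omega nuT
  congr 1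
  have hqI : Prime (q : ℤ) := Nat.prime_iff_prime_int.1 hq
  have key : ∀ m r : ℕ, r < q → ((q : ℤ) ∣ (m : ℤ) - r ↔ m % q = r) := by
    intro m r hr
    rw [← Int.modEq_iff_dvd, Int.natCast_modEq_iff]
    constructor
    · intro h
      have h1 : r % q = m % q := h
      rw [Nat.mod_eq_of_lt hr] at h1
      exact h1.symm
    · intro h
      show r % q = m % q
      rw [Nat.mod_eq_of_lt hr, h]
  ext r
  rw [mem_filter, mem_range, mem_image]
  unfold pat sh
  constructor
  · rintro ⟨hr, h⟩
    rw [hqI.dvd_mul, hqI.dvd_mul, hqI.dvd_finsetProd_iff] at h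
    rcases h with (h | h) | ⟨d, hd, h⟩
    · refine ⟨0, mem_insert_self _ _, ?_⟩
      rw [Int.natCast_dvd_natCast] at h
      simp only [Nat.zero_mod]
      exact (Nat.eq_zero_of_dvd_of_lt h hr).symm
    · refine ⟨0 + N, mem_insert_of_mem (mem_image_of_mem _ (mem_insert_self _ _)), ?_⟩
      rw [zero_add]
      exact (key N r hr).1 h
    · refine ⟨d + N, mem_insert_of_mem (mem_image_of_mem _ (mem_insert_of_mem hd)), ?_⟩
      refine (key (d + N) r hr).1 ?_
      push_cast
      rwa [add_comm (d : ℤ)]
  · rintro ⟨m, hm, rfl⟩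
    have hr : m % q < q := Nat.mod_lt _ hq.pos
    refine ⟨hr, ?_⟩
    rw [hqI.dvd_mul, hqI.dvd_mul, hqI.dvd_finsetProd_iff]
    rw [mem_insert] at hm
    rcases hm with rfl | hm
    · left; left
      rw [Nat.zero_mod]
      exact dvd_zero _
    · obtain ⟨d, hd, rfl⟩ := mem_image.1 hm
      rcases mem_insert.1 hd with rfl | hd
      · left; right
        refine (key N _ hr).2 ?_
        rw [zero_add]
      · right
        refine ⟨d, hd, ?_⟩
        have h := (key (d + N) _ hr).2 rfl
        push_cast at h ⊢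
        rwa [add_comm (N : ℤ)]

lemma adm_iff {N : ℕ} (D : Finset ℕ) : Admissible N D ↔ Adm (pat (sh N (insert 0 D))) := by
  unfold Admissible Adm
  constructor
  · intro h p hp
    rw [← omega_eq N D hp]
    exact h p hp
  · intro h p hp
    rw [omega_eq N D hp]
    exact h p hp

lemma card_shD {N : ℕ} {D : Finset ℕ} (h0 : 0 ∉ D) : (sh N (insert 0 D)).card = D.card + 1 := by
  rw [card_sh, card_insert_of_notMem h0]

lemma factor_eq {N : ℕ} (hN : 1 ≤ N) {D : Finset ℕ} (h0 : 0 ∉ D) {p : ℕ} (hp : p.Prime) :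
    factor N D p = locT (pat (sh N (insert 0 D))) p := by
  unfold factor locT
  rw [omega_eq N D hp, card_pat (zero_notMem_sh hN _), card_shD h0]

lemma singular_eq {N : ℕ} (hN : 1 ≤ N) {D : Finset ℕ} (h0 : 0 ∉ D) :
    singular N D = CT (pat (sh N (insert 0 D))) := by
  unfold singular CT
  exact tprod_congr fun p => factor_eq hN h0 p.2

lemma mult {N : ℕ} (hN : 1 ≤ N) {D : Finset ℕ} (h0 : 0 ∉ D) :
    Multipliable (fun p : Nat.Primes => factor N D p) := by
  have h := (CT_hasProd (pat (sh N (insert 0 D)))).multipliable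
  have e : (fun p : Nat.Primes => factor N D p) = fun p : Nat.Primes => locT (pat (sh N (insert 0 D))) p := by
    funext p
    exact factor_eq hN h0 p.2
  rw [e]
  exact h

/-- reflection -/
lemma piC_le (N : ℕ) (D : Finset ℕ) : piC D N ≤ count N D := by
  classical
  unfold piC count
  refine card_le_card_of_injOn (fun n => N - n) (fun n hn => ?_) fun n hn n' hn' h => ?_
  · rw [mem_coe, mem_filter, mem_Icc] at hn
    rw [mem_coe, mem_filter, mem_range]
    obtain ⟨⟨h1, h2⟩, h3, h4, h5⟩ := hn
    have e1 : N - (N - n) = n := by omega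
    simp only
    refine ⟨by omega, h3, ?_, fun d hd => ?_⟩
    · rw [e1]
      exact h4
    · have e2 : N + d - (N - n) = n + d := by omega
      rw [e2]
      exact h5 d hd
  · rw [mem_coe, mem_filter, mem_Icc] at hn hn'
    simp only at h
    omega

/-- sets of shifts which are divisible by the small primes -/
lemma many (k : ℕ) (hk : 1 ≤ k) : ∃ c : ℝ, 0 < c ∧ ∃ H₀ : ℕ, ∀ N H : ℕ, 1 ≤ N → Even N → H₀ ≤ H →
    ∃ F : Finset (Finset ℕ), F ⊆ (Icc 1 H).powersetCard k ∧ (∀ D ∈ F, Admissible N D) ∧
      c * (H : ℝ) ^ k ≤ F.card := by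
  classical
  obtain ⟨P, hP⟩ : ∃ P : ℕ, P = ∏ p ∈ (range (k + 3)).filter Nat.Prime, p := ⟨_, rfl⟩
  have hP1 : 1 ≤ P := by
    have h : 0 < ∏ p ∈ (range (k + 3)).filter Nat.Prime, p :=
      prod_pos fun p hp => (mem_filter.1 hp).2.pos
    rw [hP]
    exact h
  have hPr : (1 : ℝ) ≤ P := by exact_mod_cast hP1
  refine ⟨(1 / (2 * P : ℝ)) ^ k / (k.factorial : ℝ), by positivity, 2 * P * (k + 1), fun N H hN hev hH => ?_⟩
  have hinj : Function.Injective (fun j : ℕ => P * j) := fun a b h => Nat.eq_of_mul_eq_mul_left hP1 h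
  refine ⟨((Icc 1 (H / P)).powersetCard k).image (fun S => S.image (fun j => P * j)), ?_, ?_, ?_⟩
  · intro D hD
    obtain ⟨S, hS, rfl⟩ := mem_image.1 hD
    rw [mem_powersetCard] at hS ⊢
    refine ⟨?_, ?_⟩
    · intro d hd
      obtain ⟨j, hj, rfl⟩ := mem_image.1 hd
      have h1 := mem_Icc.1 (hS.1 hj)
      rw [mem_Icc]
      have h3 : P * j ≤ H := (Nat.mul_le_mul_left P h1.2).trans (Nat.mul_div_le H P)
      exact ⟨Nat.mul_pos hP1 h1.1, h3⟩
    · rw [card_image_of_injective _ hinj, hS.2]
  · intro D hD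
    obtain ⟨S, hS, rfl⟩ := mem_image.1 hD
    rw [mem_powersetCard] at hS
    intro p hp
    rw [omega_eq _ _ hp]
    by_cases hpk : p < k + 3
    · have hpP : p ∣ P := by rw [hP]; exact dvd_prod_of_mem _ (mem_filter.2 ⟨mem_range.2 hpk, hp⟩)
      have h2 : (pat (sh N (insert 0 (S.image (fun j => P * j))))).image (· % p) ⊆ {0, N % p} := by
        intro x hx
        obtain ⟨t, ht, rfl⟩ := mem_image.1 hx
        unfold pat at ht
        rw [mem_insert] at ht
        rw [mem_insert, mem_singleton]
        rcases ht with rfl | ht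
        · left
          exact Nat.zero_mod p
        · right
          unfold sh at ht
          obtain ⟨d, hd, rfl⟩ := mem_image.1 ht
          rcases mem_insert.1 hd with rfl | hd
          · rw [zero_add]
          · obtain ⟨j, _, rfl⟩ := mem_image.1 hd
            have h3 : p ∣ P * j := hpP.mul_right j
            rw [Nat.add_mod, (Nat.dvd_iff_mod_eq_zero).1 h3, zero_add, Nat.mod_mod]
      unfold nuT
      rcases hp.eq_two_or_odd with rfl | hodd
      · have h3 : N % 2 = 0 := Nat.even_iff.1 hev
        rw [h3, pair_eq_singleton] at h2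
        have h4 := card_le_card h2
        rw [card_singleton] at h4
        omega
      · have h4 := (card_le_card h2).trans card_le_two
        have h5 := hp.two_le
        omega
    · have h1 := nuT_le_card (pat (sh N (insert 0 (S.image (fun j => P * j))))) p
      have h2 : (pat (sh N (insert 0 (S.image (fun j => P * j))))).card ≤ k + 2 := by
        refine (card_insert_le _ _).trans ?_
        have h3 : (sh N (insert 0 (S.image (fun j => P * j)))).card ≤ k + 1 := by
          rw [card_sh]
          refine (card_insert_le _ _).trans ?_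
          have := (card_image_le (s := S) (f := fun j => P * j)).trans hS.2.le
          omega
        omega
      omega
  · rw [card_image_of_injOn]
    · rw [card_powersetCard, Nat.card_Icc, Nat.add_sub_cancel]
      have h1 := Nat.pow_le_choose (α := ℝ) k (H / P)
      refine le_trans ?_ h1
      have h2 : (1 / (2 * P : ℝ)) * H ≤ ((H / P + 1 - k : ℕ) : ℝ) := by
        have h3 : (H : ℝ) / P ≤ (H / P : ℕ) + 1 := by
          rw [div_le_iff₀ (by linarith)]
          have := Nat.lt_div_mul_add (a := H) hP1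
          have h4 : (H : ℝ) ≤ ((H / P * P + P : ℕ) : ℝ) := by exact_mod_cast this.le
          push_cast at h4
          linarith
        have h4 : 2 * (k + 1) ≤ H / P := by
          rw [Nat.le_div_iff_mul_le hP1]
          calc 2 * (k + 1) * P = 2 * P * (k + 1) := by ring
            _ ≤ H := hH
        have h5 : ((H / P + 1 - k : ℕ) : ℝ) = (H / P : ℕ) + 1 - k := by
          rw [Nat.cast_sub (by omega)]
          push_cast
          ring
        have h6 : (2 * ((k : ℝ) + 1)) ≤ H / P := by
          rw [le_div_iff₀ (by linarith)]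
          have : ((2 * P * (k + 1) : ℕ) : ℝ) ≤ H := by exact_mod_cast hH
          push_cast at this
          linarith
        have h7 : (1 / (2 * P : ℝ)) * H = (H / P) / 2 := by
          field_simp
        rw [h5, h7]
        linarith
      have h3 : (1 / (2 * P : ℝ)) ^ k / (k.factorial : ℝ) * (H : ℝ) ^ k =
          ((1 / (2 * P : ℝ)) * H) ^ k / (k.factorial : ℝ) := by
        rw [mul_pow]; ring
      rw [h3]
      refine div_le_div_of_nonneg_right ?_ (by positivity)
      exact pow_le_pow_left₀ (by positivity) h2 k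
    · intro S _ S' _ h
      exact image_injective hinj h

end

open Classical in
/-- **Chen's theorem with a common prime, for every large even `N`.**

(1) There is an absolute constant `c > 0` such that for all `k ≥ 1` and `ε > 0`, with a suitable `Λ`, for EVERY large
`N` and all `H` with `Λ log N ≤ H ≤ N`: for all but `ε H^k` of the sets `D` of `k` elements of `[1, H]`, if the pattern
is admissible (in particular `N` and all `d ∈ D` are even), there are at least `c^(k+1) 𝔖 N / (log N)^(k+2)` primes
`p < N` such that `N - p` and all `N + d - p`, `d ∈ D`, have at most two prime factors, those of `N - p` all at least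
`N ^ (1/8)` and those of the `N + d - p` all at least `N ^ (1/7)`.

(2) In particular, for all `k ≥ 1` there are `c > 0` and `Λ` such that for EVERY large even `N` and all `H` with
`Λ log N ≤ H ≤ N`, at least `c H^k` of the sets `D` of `k` elements of `[1, H]` are admissible and have at least
`c N / (log N)^(k+2)` such primes.

(3) The singular series converges. -/
theorem result :
    (∃ c : ℝ, 0 < c ∧ ∀ k : ℕ, 1 ≤ k → ∀ ε : ℝ, 0 < ε → ∃ (Λ : ℝ) (N₀ : ℕ), 0 < Λ ∧
      ∀ N : ℕ, N₀ ≤ N → ∀ H : ℕ, Λ * Real.log N ≤ H → H ≤ N →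
        ((((Icc 1 H).powersetCard k).filter (fun D => Admissible N D ∧
          (count N D : ℝ) < c ^ (k + 1) * singular N D * (N / Real.log N ^ (k + 2)))).card : ℝ) ≤
            ε * (H : ℝ) ^ k) ∧
    (∀ k : ℕ, 1 ≤ k → ∃ (c Λ : ℝ) (N₀ : ℕ), 0 < c ∧ 0 < Λ ∧
      ∀ N : ℕ, N₀ ≤ N → Even N → ∀ H : ℕ, Λ * Real.log N ≤ H → H ≤ N →
        c * (H : ℝ) ^ k ≤ ((((Icc 1 H).powersetCard k).filter (fun D => Admissible N D ∧
          c * (N / Real.log N ^ (k + 2)) ≤ count N D)).card : ℝ)) ∧
    ∀ (N : ℕ) (D : Finset ℕ), 1 ≤ N → 0 ∉ D → Multipliable (fun q : Nat.Primes => factor N D q) := by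
  obtain ⟨c, hc, hmain⟩ := Pool.Agent.J4.H38.CH.almostC2
  have h0D : ∀ (H k : ℕ) (D : Finset ℕ), D ∈ (Icc 1 H).powersetCard k → 0 ∉ D := by
    intro H k D hD h
    have h1 := mem_Icc.1 ((mem_powersetCard.1 hD).1 h)
    omega
  have part1 : ∀ k : ℕ, 1 ≤ k → ∀ ε : ℝ, 0 < ε → ∃ (Λ : ℝ) (N₀ : ℕ), 0 < Λ ∧
      ∀ N : ℕ, N₀ ≤ N → ∀ H : ℕ, Λ * Real.log N ≤ H → H ≤ N →
        ((((Icc 1 H).powersetCard k).filter (fun D => Admissible N D ∧
          (count N D : ℝ) < c ^ (k + 1) * singular N D * (N / Real.log N ^ (k + 2)))).card : ℝ) ≤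
            ε * (H : ℝ) ^ k := by
    intro k hk ε hε
    obtain ⟨j, rfl⟩ : ∃ j, k = j + 1 := ⟨k - 1, by omega⟩
    obtain ⟨Λ, hΛ, h⟩ := hmain j ε hε
    obtain ⟨N₀, hN₀⟩ := eventually_atTop.1 h
    refine ⟨Λ, max N₀ 1, hΛ, fun N hN H hH1 hH2 => ?_⟩
    have hN1 : 1 ≤ N := (le_max_right _ _).trans hN
    refine hN₀ N ((le_max_left _ _).trans hN) H hH1 hH2 _ fun D hD => ?_
    rw [mem_filter] at hD
    refine ⟨hD.1, (adm_iff D).1 hD.2.1, ?_⟩
    have h1 := hD.2.2
    rw [singular_eq hN1 (h0D _ _ _ hD.1)] at h1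
    refine lt_of_le_of_lt ?_ h1
    exact_mod_cast piC_le N D
  refine ⟨⟨c, hc, part1⟩, fun k hk => ?_, fun N D hN h0 => mult hN h0⟩
  obtain ⟨c₁, hc₁, H₀, hF⟩ := many k hk
  obtain ⟨cp, hcp, hlow⟩ := Pool.Agent.Y822.PT_low (k + 1)
  obtain ⟨Λ, N₀, hΛ, h1⟩ := part1 k hk (c₁ / 2) (by positivity)
  obtain ⟨N₂, hN₂⟩ := eventually_atTop.1 (Pool.Agent.Y822.ev_logN (eventually_ge_atTop ((H₀ : ℝ) / Λ)))
  refine ⟨min (c₁ / 2) (c ^ (k + 1) * cp), Λ, max (max N₀ N₂) 2, lt_min (by positivity) (by positivity), hΛ,
    fun N hN hNev H hH1 hH2 => ?_⟩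
  have hNN₀ : N₀ ≤ N := ((le_max_left _ _).trans (le_max_left _ _)).trans hN
  have hNN₂ : N₂ ≤ N := ((le_max_right _ _).trans (le_max_left _ _)).trans hN
  have hN2 : 2 ≤ N := (le_max_right _ _).trans hN
  have hL0 : 0 < Real.log N := Real.log_pos (by exact_mod_cast (by omega : 1 < N))
  have hHH₀ : H₀ ≤ H := by
    have h2 := hN₂ N hNN₂
    rw [div_le_iff₀ hΛ] at h2
    exact_mod_cast (h2.trans (le_of_eq (mul_comm _ _))).trans hH1
  obtain ⟨F, hF1, hF2, hF3⟩ := hF N H (by omega) hNev hHH₀
  have h2 := h1 N hNN₀ H hH1 hH2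
  set B := ((Icc 1 H).powersetCard k).filter (fun D => Admissible N D ∧
          (count N D : ℝ) < c ^ (k + 1) * singular N D * (N / Real.log N ^ (k + 2))) with hB
  have h3 : F \ B ⊆ ((Icc 1 H).powersetCard k).filter (fun D => Admissible N D ∧
          min (c₁ / 2) (c ^ (k + 1) * cp) * (N / Real.log N ^ (k + 2)) ≤ count N D) := by
    intro D hD
    rw [Finset.mem_sdiff] at hD
    obtain ⟨hDF, hDB⟩ := hD
    have hadm := hF2 D hDF
    have h0 := h0D _ _ _ (hF1 hDF)
    rw [mem_filter]
    refine ⟨hF1 hDF, hadm, ?_⟩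
    have h4 : ¬ (count N D : ℝ) < c ^ (k + 1) * singular N D * (N / Real.log N ^ (k + 2)) := fun h =>
      hDB (by rw [hB, mem_filter]; exact ⟨hF1 hDF, hadm, h⟩)
    rw [not_lt] at h4
    refine le_trans ?_ h4
    have h5 : cp ≤ singular N D := by
      rw [singular_eq (by omega) h0]
      refine (hlow _ ?_ ((adm_iff D).1 hadm)).2
      rw [Pool.Agent.Y822.card_pat (Pool.Agent.J4.H38.SR2.zero_notMem_sh (by omega) _),
        card_shD h0, (mem_powersetCard.1 (hF1 hDF)).2]
    have h6 : min (c₁ / 2) (c ^ (k + 1) * cp) ≤ c ^ (k + 1) * singular N D :=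
      (min_le_right _ _).trans (mul_le_mul_of_nonneg_left h5 (by positivity))
    exact mul_le_mul_of_nonneg_right h6 (by positivity)
  have h4 := card_le_card h3
  have h5 : F.card - B.card ≤ (F \ B).card := le_card_sdiff B F
  have h6 : (F.card : ℝ) - B.card ≤ ((F \ B).card : ℝ) := by
    have : F.card ≤ (F \ B).card + B.card := by omega
    have h7 : (F.card : ℝ) ≤ (F \ B).card + B.card := by exact_mod_cast this
    linarith
  have h7 : ((F \ B).card : ℝ) ≤ ((((Icc 1 H).powersetCard k).filter (fun D => Admissible N D ∧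
          min (c₁ / 2) (c ^ (k + 1) * cp) * (N / Real.log N ^ (k + 2)) ≤ count N D)).card : ℝ) := by
    exact_mod_cast h4
  refine le_trans ?_ (h6.trans h7)
  have h8 : min (c₁ / 2) (c ^ (k + 1) * cp) * (H : ℝ) ^ k ≤ c₁ / 2 * (H : ℝ) ^ k :=
    mul_le_mul_of_nonneg_right (min_le_left _ _) (by positivity)
  linarith

end Pool.Agent.Results.MP_7b7e48_nt.ChenCommonPrime
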