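import Pool.Agent.J4.H65.GQ.Main

/-!
# Goldbach's conjecture near the values of smooth functions, for extremely sparse families

Definitions used. In `Pool.Agent.H560R3.GB`: `C₂`: the twin prime constant `∏_{p > 2} (1 - 1 / (p - 1) ^ 2)`; `sing n`:
the singular series `2 C₂ ∏_{p ∣ n, p > 2} (p - 1) / (p - 2)`; `g n`: the number of ordered representations of `n` as a
sum of two primes; `HL n = sing n * n / log ^ 2 n`: the prediction of Hardy and Littlewood for `g n`.
In `Pool.Agent.J4.H65.GQ`: `Profile D φ`: `φ 0` is a smooth function on `[1, 3]`, `φ j` is its derivative of order `j`,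
`|φ j t| ≤ D j!` for all `j ≥ 0` and `1 ≤ t ≤ 3`, and `|φ j t| ≥ j! / (D j ^ 2 2 ^ j)` for all `j ≥ 1` and `1 ≤ t ≤ 2`.

The main steps are: (1) the bound `∑_{N < n ≤ 2 N} e(z φ(n / N)) ≪ N ^ (1 - c log ^ 2 N / log ^ 2 |z|)` of Vinogradov's
method, uniformly for all profiles (`Pool.Agent.J4.H65.GQ.es_large`), and the inequality of Kusmin and Landau for small
`z`; (2) the randomly rounded values of `A φ(n / N)` have a characteristic function which is small except near zero
(`Pool.Agent.J4.H65.GQ.law`); (3) the second moment method for random integers whose characteristic function is large at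
few frequencies only (`Pool.Agent.N469.SQ.fl_gold`, starting files).
-/

set_option autoImplicit false

namespace Pool.Agent.Results.MP_7b7e48_nt.SparseProfiles

open Finset Pool.Agent.H560R3.GB Pool.Agent.J4.H65.GQ

/-- `n` is a sum of two distinct primes, and the number of its representations as a sum of two primes
agrees with the prediction of Hardy and Littlewood up to a relative error of at most `ε`. -/
def Holds (ε : ℝ) (n : ℕ) : Prop :=
  |(g n : ℝ) - HL n| ≤ ε * HL n ∧ ∃ p q : ℕ, p.Prime ∧ q.Prime ∧ p ≠ q ∧ p + q = n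

/-- the derivatives of `t ^ β` -/
noncomputable def pw (β : ℝ) (j : ℕ) (t : ℝ) : ℝ := (∏ i ∈ range j, (β - i)) * t ^ (β - j)

lemma pw_zero (β t : ℝ) : pw β 0 t = t ^ β := by
  unfold pw
  simp

lemma prod_up (β : ℝ) (h1 : -1 ≤ β) (h2 : β < 1) : ∀ j : ℕ, |∏ i ∈ range j, (β - i)| ≤ j.factorial := by
  intro j
  induction j with
  | zero => simp
  | succ j ih =>
      rw [prod_range_succ, abs_mul, Nat.factorial_succ]
      push_cast
      rw [mul_comm ((j : ℝ) + 1)]
      have hj : (0 : ℝ) ≤ j := Nat.cast_nonneg _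
      apply mul_le_mul ih _ (abs_nonneg _) (by positivity)
      rw [abs_le]
      constructor <;> linarith

lemma prod_low (β : ℝ) (h2 : β < 1) : ∀ j : ℕ,
    |β| * (1 - β) * ((j + 2).factorial : ℝ) ≤ ((j : ℝ) + 2) * (j + 1) * |∏ i ∈ range (j + 2), (β - i)| := by
  intro j
  induction j with
  | zero =>
      rw [prod_range_succ, prod_range_succ, prod_range_zero, one_mul, abs_mul]
      simp only [Nat.cast_zero, sub_zero, zero_add, Nat.cast_one]
      have e1 : |β - 1| = 1 - β := by rw [abs_of_neg (by linarith)]; ring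
      rw [e1]
      have e2 : ((Nat.factorial 2 : ℕ) : ℝ) = 2 := by norm_num [Nat.factorial]
      rw [e2]
      linarith
  | succ j ih =>
      have e1 : j + 1 + 2 = (j + 2) + 1 := by ring
      rw [e1, prod_range_succ, abs_mul, Nat.factorial_succ]
      have hj : (0 : ℝ) ≤ j := Nat.cast_nonneg _
      have e2 : |β - ((j + 2 : ℕ) : ℝ)| = (j : ℝ) + 2 - β := by
        push_cast
        rw [abs_of_neg (by linarith)]
        ring
      rw [e2]
      push_cast
      obtain ⟨P, hP⟩ : ∃ P, P = |∏ i ∈ range (j + 2), (β - i)| := ⟨_, rfl⟩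
      rw [← hP] at ih ⊢
      have hP0 : 0 ≤ P := by rw [hP]; exact abs_nonneg _
      calc |β| * (1 - β) * (((j : ℝ) + 2 + 1) * ((j + 2).factorial : ℝ)) =
          ((j : ℝ) + 3) * (|β| * (1 - β) * ((j + 2).factorial : ℝ)) := by ring
        _ ≤ ((j : ℝ) + 3) * (((j : ℝ) + 2) * (j + 1) * P) := mul_le_mul_of_nonneg_left ih (by positivity)
        _ ≤ ((j : ℝ) + 3) * (((j : ℝ) + 2) * (j + 2 - β) * P) := by
            apply mul_le_mul_of_nonneg_left _ (by positivity)
            apply mul_le_mul_of_nonneg_right _ hP0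
            apply mul_le_mul_of_nonneg_left _ (by positivity)
            linarith
        _ = _ := by ring

/-- the powers are profiles -/
lemma profile_pw (β : ℝ) (h1 : -1 ≤ β) (h2 : β < 1) (h3 : β ≠ 0) : ∃ D : ℝ, 1 ≤ D ∧ Profile D (pw β) := by
  have hb : 0 < |β| := abs_pos.2 h3
  have hb2 : 0 < 1 - β := by linarith
  obtain ⟨D, hD⟩ : ∃ D : ℝ, D = 3 + 8 / (|β| * (1 - β)) := ⟨_, rfl⟩
  have hD3 : 3 ≤ D := by
    rw [hD]
    have : 0 ≤ 8 / (|β| * (1 - β)) := by positivity
    linarith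
  have hD0 : 0 < D := by linarith
  have hDb : 8 ≤ D * (|β| * (1 - β)) := by
    have e1 : 8 / (|β| * (1 - β)) * (|β| * (1 - β)) = 8 := by field_simp
    have e2 : 8 / (|β| * (1 - β)) ≤ D := by rw [hD]; linarith
    calc (8 : ℝ) = 8 / (|β| * (1 - β)) * (|β| * (1 - β)) := e1.symm
      _ ≤ D * (|β| * (1 - β)) := mul_le_mul_of_nonneg_right e2 (by positivity)
  refine ⟨D, by linarith, ?_, ?_, ?_⟩
  · intro j t ht
    have ht0 : t ≠ 0 := by have := ht.1; intro h; rw [h] at this; linarith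
    have h4 := (Real.hasDerivAt_rpow_const (x := t) (p := β - j) (Or.inl ht0)).const_mul (∏ i ∈ range j, (β - i))
    unfold pw
    refine h4.congr_deriv ?_
    rw [prod_range_succ]
    push_cast
    have e1 : β - (j + 1) = β - j - 1 := by ring
    rw [e1]
    ring
  · intro j t ht
    unfold pw
    rw [abs_mul]
    have ht0 : 0 < t := by linarith [ht.1]
    rw [abs_of_pos (Real.rpow_pos_of_pos ht0 _), mul_comm]
    apply mul_le_mul _ (prod_up β h1 h2 j) (abs_nonneg _) hD0.le
    rcases Nat.eq_zero_or_pos j with h | h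
    · rw [h, Nat.cast_zero, sub_zero]
      calc t ^ β ≤ t ^ (1 : ℝ) := Real.rpow_le_rpow_of_exponent_le ht.1 h2.le
        _ = t := Real.rpow_one t
        _ ≤ 3 := ht.2
        _ ≤ D := hD3
    · have hj : (1 : ℝ) ≤ j := by exact_mod_cast h
      exact (Real.rpow_le_one_of_one_le_of_nonpos ht.1 (by linarith)).trans (by linarith)
  · intro j hj t ht
    unfold pw
    rw [abs_mul]
    have ht0 : 0 < t := by linarith [ht.1]
    rw [abs_of_pos (Real.rpow_pos_of_pos ht0 _)]
    have hj1 : (1 : ℝ) ≤ j := by exact_mod_cast hj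
    have e1 : 1 / (2 * 2 ^ j) ≤ t ^ (β - j) := by
      calc (1 : ℝ) / (2 * 2 ^ j) = (2 : ℝ) ^ ((-1 : ℝ) - j) := by
            rw [Real.rpow_sub (by norm_num), Real.rpow_natCast, Real.rpow_neg_one]
            field_simp
        _ ≤ (2 : ℝ) ^ (β - j) := Real.rpow_le_rpow_of_exponent_le (by norm_num) (by linarith)
        _ ≤ t ^ (β - j) := Real.rpow_le_rpow_of_nonpos ht0 ht.2 (by linarith)
    have e2 : |β| * (1 - β) * (j.factorial : ℝ) ≤ 4 * (j : ℝ) ^ 2 * |∏ i ∈ range j, (β - i)| := by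
      rcases Nat.lt_or_ge j 2 with h | h
      · have : j = 1 := by omega
        rw [this, prod_range_one]
        simp only [Nat.factorial_one, Nat.cast_one, mul_one, Nat.cast_zero, sub_zero, one_pow]
        nlinarith
      · obtain ⟨i, rfl⟩ : ∃ i, j = i + 2 := ⟨j - 2, by omega⟩
        refine (prod_low β h2 i).trans ?_
        apply mul_le_mul_of_nonneg_right _ (abs_nonneg _)
        have hi : (0 : ℝ) ≤ i := Nat.cast_nonneg _
        push_cast
        nlinarith
    have e3 : (j.factorial : ℝ) ≤ D * (j : ℝ) ^ 2 * (|∏ i ∈ range j, (β - i)| / 2) := by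
      have e4 : D * (|β| * (1 - β) * (j.factorial : ℝ)) ≤ D * (4 * (j : ℝ) ^ 2 * |∏ i ∈ range j, (β - i)|) :=
        mul_le_mul_of_nonneg_left e2 hD0.le
      have e5 : 8 * (j.factorial : ℝ) ≤ D * (|β| * (1 - β)) * (j.factorial : ℝ) :=
        mul_le_mul_of_nonneg_right hDb (Nat.cast_nonneg _)
      nlinarith
    rw [div_le_iff₀ (by positivity)]
    calc (j.factorial : ℝ) ≤ D * (j : ℝ) ^ 2 * (|∏ i ∈ range j, (β - i)| / 2) := e3
      _ = |∏ i ∈ range j, (β - i)| * (1 / (2 * 2 ^ j)) * (D * (j : ℝ) ^ 2 * 2 ^ j) := by field_simp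
      _ ≤ |∏ i ∈ range j, (β - i)| * t ^ (β - j) * (D * (j : ℝ) ^ 2 * 2 ^ j) := by gcongr

open Classical in
/-- Let `U`, `W` and `ε > 0` be fixed.

(1) Let `D ≥ 1` be fixed, let `A` be large, let `φ` be a smooth function on `[1, 3]` whose Taylor coefficients `c_j(t)` at
`t` satisfy `|c_j(t)| ≤ D` for `1 ≤ t ≤ 3` and `|c_j(t)| ≥ 1 / (D j ^ 2 2 ^ j)` for `j ≥ 1` and `1 ≤ t ≤ 2`, and let
`log ^ 3 N ≥ C₀ log ^ 2 A log log A`. For all the integers `n` in `(N, 2 N]` with at most `N / log ^ U A` exceptions, ALL the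
positive even integers `m` with `|m - A φ(n / N)| ≤ log ^ W A` are sums of two distinct primes, and the numbers of their
representations as a sum of two primes agree with the prediction of Hardy and Littlewood up to a relative error of at
most `ε`. The bound `C₀` depends on `D`, `U`, `W` and `ε` only. The `N` values are of size `A`, and `N` may be as small as
`exp (C (log A) ^ (2 / 3) (log log A) ^ (1 / 3))`; there is no upper bound for `N`.

(2) This holds for the numbers `x n ^ β` with `N < n ≤ 2 N`, for every fixed real `β ≠ 0` with `-1 ≤ β < 1` and EVERY real number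
`x` such that `A = x N ^ β` is large and `log ^ 3 N ≥ C₀ log ^ 2 A log log A`; for example for the numbers `x / n`. -/
theorem result (U W : ℕ) (ε : ℝ) (hε : 0 < ε) :
    (∀ D : ℝ, 1 ≤ D → ∃ C₀ : ℝ, ∀ A : ℝ, C₀ ≤ A → ∀ N : ℕ,
      C₀ * (Real.log A ^ 2 * Real.log (Real.log A)) ≤ Real.log N ^ 3 → ∀ φ : ℕ → ℝ → ℝ, Profile D φ →
      (((Ioc N (2 * N)).filter fun n : ℕ => ¬ ∀ m : ℕ, 0 < m → Even m →
        |(m : ℝ) - A * φ 0 ((n : ℝ) / N)| ≤ Real.log A ^ W → Holds ε m).card : ℝ) ≤ N / Real.log A ^ U) ∧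
    (∀ β : ℝ, -1 ≤ β → β < 1 → β ≠ 0 → ∃ C₀ : ℝ, ∀ x : ℝ, ∀ N : ℕ, ∀ A : ℝ, A = x * (N : ℝ) ^ β → C₀ ≤ A →
      C₀ * (Real.log A ^ 2 * Real.log (Real.log A)) ≤ Real.log N ^ 3 →
      (((Ioc N (2 * N)).filter fun n : ℕ => ¬ ∀ m : ℕ, 0 < m → Even m →
        |(m : ℝ) - x * (n : ℝ) ^ β| ≤ Real.log A ^ W → Holds ε m).card : ℝ) ≤ N / Real.log A ^ U) := by
  have key : ∀ D : ℝ, 1 ≤ D → ∃ C₀ : ℝ, 3 ≤ C₀ ∧ ∀ A : ℝ, C₀ ≤ A → ∀ N : ℕ,
      C₀ * (Real.log A ^ 2 * Real.log (Real.log A)) ≤ Real.log N ^ 3 → ∀ φ : ℕ → ℝ → ℝ, Profile D φ →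
      (((Ioc N (2 * N)).filter fun n : ℕ => ¬ ∀ m : ℕ, 0 < m → Even m →
        |(m : ℝ) - A * φ 0 ((n : ℝ) / N)| ≤ Real.log A ^ W → Holds ε m).card : ℝ) ≤ N / Real.log A ^ U := by
    intro D hD
    obtain ⟨C₀, hC₀, h⟩ := main D hD U W ε hε
    refine ⟨C₀, hC₀, fun A hA N hN φ hP => ?_⟩
    refine le_trans ?_ (h A hA N hN φ hP)
    apply Nat.cast_le.2
    apply card_le_card_of_injOn (fun n => n - (N + 1))
    · intro n hn
      rw [mem_coe, mem_filter, mem_Ioc] at hn
      rw [mem_coe, mem_filter, mem_range]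
      obtain ⟨hn1, hn2⟩ := hn
      push Not at hn2
      obtain ⟨m, hm0, hm2, hm3, hm4⟩ := hn2
      simp only
      refine ⟨by omega, (m : ℤ), by omega, ?_, ?_, ?_⟩
      · exact_mod_cast hm2
      · have e1 : N + 1 + (n - (N + 1)) = n := by omega
        unfold fv
        rw [e1, Int.cast_natCast]
        exact hm3
      · rw [Int.toNat_natCast]
        exact hm4
    · intro a ha b hb hab
      rw [mem_coe, mem_filter, mem_Ioc] at ha hb
      simp only at hab
      omega
  refine ⟨fun D hD => ?_, fun β h1 h2 h3 => ?_⟩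
  · obtain ⟨C₀, _, h⟩ := key D hD
    exact ⟨C₀, h⟩
  · obtain ⟨D, hD, hP⟩ := profile_pw β h1 h2 h3
    obtain ⟨C₀, hC₀, h⟩ := key D hD
    refine ⟨C₀, fun x N A hA hA0 hN => ?_⟩
    have h4 := h A hA0 N hN (pw β) hP
    have hNp : 0 < N := by
      rcases Nat.eq_zero_or_pos N with h5 | h5
      · exfalso
        rw [h5, Nat.cast_zero, Real.zero_rpow h3, mul_zero] at hA
        linarith
      · exact h5
    have hNr : (0 : ℝ) < N := by exact_mod_cast hNp
    have e1 : ∀ n : ℕ, A * pw β 0 ((n : ℝ) / N) = x * (n : ℝ) ^ β := by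
      intro n
      rw [pw_zero, Real.div_rpow (Nat.cast_nonneg _) hNr.le, hA]
      have : (N : ℝ) ^ β ≠ 0 := (Real.rpow_pos_of_pos hNr β).ne'
      field_simp
    simp only [e1] at h4
    exact h4

end Pool.Agent.Results.MP_7b7e48_nt.SparseProfiles
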